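import Pool.Agent.H.MP_0f6055_nt.Main

namespace Pool.Agent.Results.MP_0f6055_nt.NotRegular
open Pool.Agent.H.MP_0f6055_nt

theorem result (r : ℕ) (hr : 2 ≤ r) (k : ℕ) (hk : 2 ≤ k) : ¬ IsRegular k (h r) :=
  main hr hk

end Pool.Agent.Results.MP_0f6055_nt.NotRegular
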